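import Pool.Agent.Q178.HNH.Inst
import Pool.Agent.Q178.HNS.Mobius

set_option autoImplicit false

/-!
Homogeneous non-Hausdorff three-manifolds: non-separated sets which are single two-tori, and
non-separated sets which are topological sums of two-spheres.
-/

namespace Pool.Agent.Results.MP_861644_gt.TorusAndSpheres

open Q178.HNH

/-- (a) There is an HNH-`3`-manifold in which every `NH(z)` is homeomorphic to a single two-torus.
(c) There is an HNH-`3`-manifold in which every `NH(z)` is homeomorphic to a nonempty topological
sum of copies of the two-sphere. -/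
theorem result :
    (∃ (M : Type) (_ : TopologicalSpace M),
      IsHNH 3 M ∧ ∀ z : M, Nonempty (NH z ≃ₜ Circle × Circle)) ∧
    (∃ (M : Type) (_ : TopologicalSpace M),
      IsHNH 3 M ∧ ∀ z : M, ∃ ι : Type, Nonempty ι ∧
        Nonempty (NH z ≃ₜ Σ _ : ι, Metric.sphere (0 : EuclideanSpace ℝ (Fin 3)) 1)) :=
  ⟨torus_case, Q178.HNS.sphere_case⟩

end Pool.Agent.Results.MP_861644_gt.TorusAndSpheres
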